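import Pool.Agent.Helper53.UR.Goals

/-!
# Reading the input (goal RD of project UR)
-/

set_option autoImplicit false

namespace Pool.Agent.Helper35.UR

open Pool.Agent.Helper1.TE (NumMach cif codeB)
open Pool.Agent.Helper65.LinSpace (Ctx num)
open Pool.Agent.Helper53.UR

theorem num_take_succ : ∀ (w : List Bool) (u : ℕ) (h : u < w.length),
    num (w.take (u + 1)) = num (w.take u) + 2 ^ u * (1 + (w[u]).toNat)
  | [], u, h => absurd h (by simp)
  | b :: t, 0, _ => by simp [num]; ring
  | b :: t, k + 1, h => by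
    have hk : k < t.length := by simpa using h
    have ih := num_take_succ t k hk
    simp only [List.take_succ_cons, num, List.getElem_cons_succ]
    rw [ih, pow_succ]
    ring

theorem two_pow_le : ∀ (w : List Bool) (u : ℕ), u ≤ w.length → 2 ^ u ≤ num (w.take u)
  | w, 0, _ => by simp [num]
  | w, u + 1, h => by
    have ih := two_pow_le w u (by omega)
    rw [num_take_succ w u (by omega), pow_succ]
    nlinarith [Nat.zero_le (2 ^ u * (w[u]).toNat)]

section

variable {β : Type} [Ctx β] (M : UM β) (w : List Bool)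

theorem nx0 (x : Sta β) : M.mach.nx w x 0 = M.nextN x (codeB w[x.u]?) 0 := by
  simp [NumMach.nx, UM.mach, UM.nextM, cif]

theorem step0 {x x' : Sta β} (hx : M.mach.Reach w x) (h : M.mach.nx w x 0 = x') :
    M.mach.Reach w x' :=
  Relation.ReflTransGen.tail hx ⟨0, by norm_num, h.symm⟩

theorem nx_rd (v p u : ℕ) (h : u < w.length) :
    M.mach.nx w (rdS v p u) 0 = rdS (v + (w[u]).toNat * (p + 1)) (2 * p + 1) (u + 1) := by
  rw [nx0, show (rdS v p u : Sta β).u = u from rfl, List.getElem?_eq_getElem h]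
  change cif (codeB (some w[u])) _ (rdS (v + (codeB (some w[u]) - 1) * (p + 1)) _ _) = _
  rw [show codeB (some w[u]) = (w[u]).toNat + 1 from Nat.add_comm _ _, Nat.add_sub_cancel]
  rfl

theorem nx_end (v p u : ℕ) (h : w.length ≤ u) :
    M.mach.nx w (rdS v p u) 0 = ctS (M.I (v + (p + 1))) := by
  rw [nx0, show (rdS v p u : Sta β).u = u from rfl, List.getElem?_eq_none h]
  rfl

theorem reach_rd : ∀ u ≤ w.length,
    M.mach.Reach w (rdS (num (w.take u) - 2 ^ u) (2 ^ u - 1) u)
  | 0, _ => Relation.ReflTransGen.refl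
  | u + 1, h => by
    have hu : u < w.length := h
    refine step0 M w (reach_rd u hu.le) ?_
    rw [nx_rd M w _ _ u hu]
    have h1 := two_pow_le w u hu.le
    have h2 := num_take_succ w u hu
    have h3 : 1 ≤ 2 ^ u := Nat.one_le_two_pow
    have e1 : num (w.take u) - 2 ^ u + (w[u]).toNat * (2 ^ u - 1 + 1) =
        num (w.take (u + 1)) - 2 ^ (u + 1) := by
      rw [h2, Nat.sub_add_cancel h3, pow_succ, mul_add, mul_one, Nat.mul_comm (w[u]).toNat]
      omega
    have e2 : 2 * (2 ^ u - 1) + 1 = 2 ^ (u + 1) - 1 := by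
      rw [pow_succ]
      omega
    rw [e1, e2]

end

/-- Goal RD. -/
theorem gRD : GoalRD := by
  intro β _ M w
  refine step0 M w (reach_rd M w w.length le_rfl) ?_
  rw [nx_end M w _ _ _ le_rfl, List.take_length]
  have h1 := two_pow_le w w.length le_rfl
  rw [List.take_length] at h1
  have h3 : 1 ≤ 2 ^ w.length := Nat.one_le_two_pow
  congr 2
  omega

end Pool.Agent.Helper35.UR
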